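import Pool.Agent.H57.LH.Targets2

/-!
# Collapsible types: keeping the types of the elements (MP_6ab439_lc, board lh, row CPK)
-/

set_option autoImplicit false

namespace Pool.Agent.H31.LH

open Pool.Agent.H68.BP Pool.Agent.H58.SF Pool.Agent.H53.GC Pool.Agent.H53.NR
open Pool.Agent.H53.GR (Dm Ps)
open Pool.Agent.H57.AR (tp ty tpo pullO Ty OT HomEq El ElD FamR Od GmR INJ lft)
open Pool.Agent.H57.SO (Pal Col vt Bh Sbn fib sigF)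
open Pool.Agent.H57.EQ (Cx T_CYF)
open Pool.Agent.H57.LCI (LocalCompletions Pre Realizes)
open Pool.Agent.H44.KR (HB Amg Tyi Rz Rlz Clp LInj Prm TpOn RmL LcN Pl lr blk Fv kv RkI Kd JJ Yc IsTh Can Plf Pls)
open Pool.Agent.H57.LH Function

section

variable {V : Type} {σ ρ : Sig}

/-- the map `ψ` identifies the elements of type `s` and acts on the types by `γ` -/
def CpOK (𝔸 : Str σ V) (𝔹 : Str ρ V) (s : Fin ρ.m → Prop)
    (γ : (Fin ρ.m → Prop) → (Fin ρ.m → Prop)) {W : Type} (G : W → V) : Prop :=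
  ∃ ψ : W → V, Cx 𝔸 (fun _ : Unit => G) ψ ∧
    (∀ w w', ty 𝔹 (G w) = s → ty 𝔹 (G w') = s → ψ w = ψ w') ∧
    ∀ w, ty 𝔹 (ψ w) = γ (ty 𝔹 (G w))

theorem cpOK_comp {𝔸 : Str σ V} {𝔹 : Str ρ V} {s : Fin ρ.m → Prop}
    {γ : (Fin ρ.m → Prop) → (Fin ρ.m → Prop)} {W W' : Type} {G : W → V} (h : CpOK 𝔸 𝔹 s γ G)
    (f : W' → W) : CpOK 𝔸 𝔹 s γ (fun w => G (f w)) := by
  obtain ⟨ψ, h1, h2, h3⟩ := h
  refine ⟨fun w => ψ (f w), fun l z hz => ?_, fun w w' hw hw' => h2 _ _ hw hw', fun w => h3 _⟩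
  exact h1 l (fun i => f (z i)) hz

theorem cp_ty_eq {𝔹 : Str ρ V} {W : Type} {x : W → V} {y : W → V} (h : tp 𝔹 x = tp 𝔹 y)
    (w : W) : ty 𝔹 (x w) = ty 𝔹 (y w) := by
  have h1 : pull 𝔹 x = pull 𝔹 y := congrArg Prod.snd h
  funext l
  exact congrFun (congrFun h1 l) (fun _ => w)

theorem cp_tp_comp {𝔹 : Str ρ V} {W W' : Type} {x : W → V} {y : W → V} (h : tp 𝔹 x = tp 𝔹 y)
    (f : W' → W) : tp 𝔹 (fun w => x (f w)) = tp 𝔹 (fun w => y (f w)) := by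
  have h1 : pull 𝔹 x = pull 𝔹 y := congrArg Prod.snd h
  have h2 : (fun a b => x a = x b) = (fun a b => y a = y b) := congrArg Prod.fst h
  refine Prod.ext ?_ ?_
  · funext a b
    exact congrFun (congrFun h2 (f a)) (f b)
  · funext l z
    exact congrFun (congrFun h1 l) (fun i => f (z i))

open Classical in
theorem cp_fin {𝔸 : Str σ V} {𝔹 : Str ρ V} (hT : Tyi 𝔸 𝔹) (hR : RmV 𝔹) {s : Fin ρ.m → Prop}
    (hC : Clp 𝔸 𝔹 s) {n : ℕ} (x : Fin n → V) (hx : Injective x) :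
    ∃ γ, CpOK 𝔸 𝔹 s γ x := by
  obtain ⟨N, e, hN⟩ := hR n 1 (Fin ρ.m → Prop) x hx
  obtain ⟨ψ0, hψ1, hψ2⟩ := hC (Fin N) e
  obtain ⟨φ, hφ1, hφ2⟩ := hN (fun a => ty 𝔹 (ψ0 (a 0)))
  have key : ∀ i i', ty 𝔹 (x i) = ty 𝔹 (x i') → ty 𝔹 (ψ0 (φ i)) = ty 𝔹 (ψ0 (φ i')) := by
    intro i i' h
    refine hφ2 (fun _ => i) (fun _ => i') ?_ ?_
    · funext l z
      exact congrFun h l
    · intro a b
      exact ⟨fun h => absurd h (lt_irrefl _), fun h => absurd h (lt_irrefl _)⟩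
  refine ⟨fun t => if h : ∃ i, ty 𝔹 (x i) = t then ty 𝔹 (ψ0 (φ h.choose)) else t,
    fun i => ψ0 (φ i), ?_, ?_, ?_⟩
  · intro l z hz
    refine hψ1 l (fun i => φ (z i)) fun u => ?_
    exact hT l _ _ (hz u) (cp_tp_comp hφ1 z)
  · intro i j hi hj
    refine hψ2 _ _ ?_ ?_
    · rw [← hi]
      exact cp_ty_eq hφ1 i
    · rw [← hj]
      exact cp_ty_eq hφ1 j
  · intro i
    have h : ∃ j, ty 𝔹 (x j) = ty 𝔹 (x i) := ⟨i, rfl⟩
    simp only [dif_pos h]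
    exact key _ _ h.choose_spec.symm

theorem cp_all {𝔸 : Str σ V} {𝔹 : Str ρ V} (hT : Tyi 𝔸 𝔹) (hR : RmV 𝔹) {s : Fin ρ.m → Prop}
    (hC : Clp 𝔸 𝔹 s) : ∃ γ, ∀ (W : Type) [Finite W] (G : W → V), CpOK 𝔸 𝔹 s γ G := by
  by_contra hcon
  push Not at hcon
  choose W hW G hG using hcon
  have hF : (⋃ γ, Set.range (G γ)).Finite := Set.finite_iUnion fun γ => Set.finite_range _
  have : Finite (⋃ γ, Set.range (G γ) : Set V) := hF
  obtain ⟨n, ⟨e⟩⟩ := Finite.exists_equiv_fin (⋃ γ, Set.range (G γ) : Set V)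
  obtain ⟨γ, hγ⟩ := cp_fin hT hR hC (fun i => (e.symm i : V))
    (Subtype.val_injective.comp e.symm.injective)
  refine hG γ ?_
  have h := cpOK_comp hγ (fun w : W γ => e ⟨G γ w, Set.mem_iUnion.2 ⟨γ, w, rfl⟩⟩)
  simpa using h

theorem cp_iter {𝔸 : Str σ V} {𝔹 : Str ρ V} {s : Fin ρ.m → Prop}
    {γ : (Fin ρ.m → Prop) → (Fin ρ.m → Prop)}
    (h : ∀ (W : Type) [Finite W] (G : W → V), CpOK 𝔸 𝔹 s γ G) (j : ℕ) :
    ∀ (W : Type) [Finite W] (G : W → V), CpOK 𝔸 𝔹 s (γ^[j + 1]) G := by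
  induction j with
  | zero => exact h
  | succ j ih =>
    intro W _ G
    obtain ⟨ψ1, a1, a2, a3⟩ := ih W G
    have : Finite (Set.range ψ1) := Set.finite_range ψ1
    obtain ⟨ψ2, b1, -, b3⟩ := h (Set.range ψ1) Subtype.val
    refine ⟨fun w => ψ2 ⟨ψ1 w, w, rfl⟩, fun l z hz => ?_, fun w w' hw hw' => ?_, fun w => ?_⟩
    · exact b1 l (fun i => ⟨ψ1 (z i), z i, rfl⟩) fun _ => a1 l z hz
    · have h1 : (⟨ψ1 w, w, rfl⟩ : Set.range ψ1) = ⟨ψ1 w', w', rfl⟩ :=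
        Subtype.ext (a2 w w' hw hw')
      simp only
      rw [h1]
    · rw [b3, iterate_succ_apply' γ, ← a3]

end

theorem pf_CPK : T_CPK := by
  intro V σ ρ 𝔸 𝔹 _ hT hR hP s _ hC
  obtain ⟨γ, hγ⟩ := cp_all hT hR hC
  have hSb : Pool.Agent.H44.KR.Sb 𝔸 𝔹 γ := by
    intro W _ G
    obtain ⟨ψ, h1, -, h3⟩ := hγ W G
    exact ⟨ψ, h1, h3⟩
  have hinj : Set.InjOn γ (Rlz 𝔹) := hP γ hSb
  have hmaps : Set.MapsTo γ (Rlz 𝔹) (Rlz 𝔹) := by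
    rintro t ⟨x, rfl⟩
    obtain ⟨ψ, -, -, h3⟩ := hγ Unit (fun _ => x)
    exact ⟨ψ (), h3 ()⟩
  have hfin : Finite (Rlz 𝔹) := inferInstance
  have hi : Injective (hmaps.restrict γ (Rlz 𝔹) (Rlz 𝔹)) := hmaps.restrict_inj.2 hinj
  have hb : Bijective (hmaps.restrict γ (Rlz 𝔹) (Rlz 𝔹)) := Finite.injective_iff_bijective.1 hi
  obtain ⟨m, hm, hm1⟩ := (isOfFinOrder_of_finite (Equiv.ofBijective _ hb)).exists_pow_eq_one
  obtain ⟨j, rfl⟩ := Nat.exists_eq_succ_of_ne_zero hm.ne'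
  have hid : ∀ t ∈ Rlz 𝔹, γ^[j + 1] t = t := by
    intro t ht
    have h1 : ((Equiv.ofBijective _ hb) ^ (j + 1)) ⟨t, ht⟩ = ⟨t, ht⟩ := by
      have : (Equiv.ofBijective _ hb) ^ (j + 1) = 1 := hm1
      rw [this]
      rfl
    rw [← Equiv.Perm.iterate_eq_pow] at h1
    have h2 : ∀ (i : ℕ) (u : Rlz 𝔹), (((Equiv.ofBijective _ hb : Rlz 𝔹 → Rlz 𝔹)^[i] u : Rlz 𝔹) :
        Fin ρ.m → Prop) = γ^[i] u := by
      intro i
      induction i with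
      | zero => intro u; rfl
      | succ i ih =>
        intro u
        rw [iterate_succ_apply', iterate_succ_apply', ← ih u]
        rfl
    have h3 := h2 (j + 1) ⟨t, ht⟩
    rw [h1] at h3
    exact h3.symm
  intro W _ G
  obtain ⟨ψ, h1, h2, h3⟩ := cp_iter hγ j W G
  refine ⟨ψ, h1, h2, fun w => ?_⟩
  rw [h3 w, hid _ ⟨G w, rfl⟩]

end Pool.Agent.H31.LH
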